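import Pool.Agent.Y110.FJ.Stm

/-!
# The tree of an amalgamated product

`G` is the amalgamated product of its subgroups `A` and `B` over `K` (`Amg A B K`). The tree with
the vertices `g A` and `g B`.
-/

set_option autoImplicit false

namespace Q27.FJT

open Pool.Agent.Y110.FJ

section TreeDef

variable {G : Type} [Group G] (A B : Subgroup G)

/-- the vertices -/
abbrev VV : Type := (G ⧸ A) ⊕ (G ⧸ B)

/-- the vertex `g A` -/
abbrev vA (g : G) : VV A B := Sum.inl (g : G ⧸ A)

/-- the vertex `g B` -/
abbrev vB (g : G) : VV A B := Sum.inr (g : G ⧸ B)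

variable {A B}

theorem smul_vA (a g : G) : a • vA A B g = vA A B (a * g) := rfl

theorem smul_vB (a g : G) : a • vB A B g = vB A B (a * g) := rfl

theorem vA_eq {g g' : G} : vA A B g = vA A B g' ↔ g⁻¹ * g' ∈ A := by
  unfold vA
  rw [Sum.inl.injEq, QuotientGroup.eq]

theorem vB_eq {g g' : G} : vB A B g = vB A B g' ↔ g⁻¹ * g' ∈ B := by
  unfold vB
  rw [Sum.inr.injEq, QuotientGroup.eq]

theorem vertex_cases (v : VV A B) : (∃ g, v = vA A B g) ∨ ∃ g, v = vB A B g := by
  rcases v with v | v
  · induction v using QuotientGroup.induction_on with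
    | H g => exact Or.inl ⟨g, rfl⟩
  · induction v using QuotientGroup.induction_on with
    | H g => exact Or.inr ⟨g, rfl⟩

variable (A B) in
/-- the tree of an amalgamated product -/
def atree : SimpleGraph (VV A B) where
  Adj u v := ∃ g : G, (u = vA A B g ∧ v = vB A B g) ∨ (v = vA A B g ∧ u = vB A B g)
  symm := ⟨fun _ _ ⟨g, h⟩ => ⟨g, h.symm⟩⟩
  loopless := ⟨fun v ⟨g, h⟩ => by
    rcases h with ⟨h1, h2⟩ | ⟨h1, h2⟩ <;> · rw [h1] at h2; exact Sum.inl_ne_inr h2⟩

theorem adj_AB (g : G) : (atree A B).Adj (vA A B g) (vB A B g) :=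
  ⟨g, Or.inl ⟨rfl, rfl⟩⟩

theorem atree_adj (a : G) {u v : VV A B} (h : (atree A B).Adj u v) :
    (atree A B).Adj (a • u) (a • v) := by
  obtain ⟨g, h⟩ := h
  refine ⟨a * g, ?_⟩
  rcases h with ⟨rfl, rfl⟩ | ⟨rfl, rfl⟩
  · exact Or.inl ⟨rfl, rfl⟩
  · exact Or.inr ⟨rfl, rfl⟩

variable {K : Subgroup G}

theorem connected (h : Amg A B K) : (atree A B).Connected := by
  have htr : ∀ (a : G) {u v : VV A B}, (atree A B).Reachable u v →
      (atree A B).Reachable (a • u) (a • v) := by
    intro a u v huv
    let f : atree A B →g atree A B := ⟨fun v => a • v, fun h => atree_adj a h⟩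
    exact huv.map f
  have key : ∀ g : G, (atree A B).Reachable (vA A B 1) (vA A B g) := by
    let P : Subgroup G :=
      { carrier := {g | (atree A B).Reachable (vA A B 1) (vA A B g)}
        one_mem' := SimpleGraph.Reachable.refl _
        mul_mem' := by
          intro a b ha hb
          have h1 := htr a hb
          rw [smul_vA, smul_vA, mul_one] at h1
          exact SimpleGraph.Reachable.trans ha h1
        inv_mem' := by
          intro a ha
          have h1 := htr a⁻¹ ha
          rw [smul_vA, smul_vA, mul_one, inv_mul_cancel] at h1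
          exact h1.symm }
    have hP : P = ⊤ := by
      rw [eq_top_iff, ← h.gen, sup_le_iff]
      constructor
      · intro a ha
        show (atree A B).Reachable (vA A B 1) (vA A B a)
        have : vA A B 1 = vA A B a := by
          rw [vA_eq]
          simpa using ha
        rw [this]
      · intro b hb
        show (atree A B).Reachable (vA A B 1) (vA A B b)
        have h1 : vB A B 1 = vB A B b := by
          rw [vB_eq]
          simpa using hb
        have h2 := (adj_AB (A := A) (B := B) 1).reachable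
        have h3 := (adj_AB (A := A) (B := B) b).reachable
        rw [h1] at h2
        exact h2.trans h3.symm
    intro g
    have : g ∈ P := by rw [hP]; trivial
    exact this
  have key2 : ∀ v : VV A B, (atree A B).Reachable (vA A B 1) v := by
    intro v
    rcases vertex_cases v with ⟨g, rfl⟩ | ⟨g, rfl⟩
    · exact key g
    · exact (key g).trans (adj_AB g).reachable
  have : Nonempty (VV A B) := ⟨vA A B 1⟩
  exact ⟨fun u v => (key2 u).symm.trans (key2 v)⟩

end TreeDef

section Potential

variable {G : Type} [Group G] {A B K : Subgroup G}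

variable (K) in
/-- the permutation action on functions on the edges -/
def rho : G →* Equiv.Perm ((G ⧸ K) → ℤ) where
  toFun h :=
    { toFun := fun x e => x (h⁻¹ • e)
      invFun := fun x e => x (h • e)
      left_inv := fun x => by funext e; simp
      right_inv := fun x => by funext e; simp }
  map_one' := by
    ext x e
    simp
  map_mul' a b := by
    ext x e
    simp [mul_smul]

theorem rho_apply (h : G) (x : (G ⧸ K) → ℤ) (e : G ⧸ K) : rho K h x e = x (h⁻¹ • e) := rfl

theorem rho_sub (h : G) (x y : (G ⧸ K) → ℤ) : rho K h (x - y) = rho K h x - rho K h y := rfl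

theorem rho_zero (h : G) : rho K h 0 = 0 := rfl

open Classical in
variable (K) in
/-- the edge `g K` -/
noncomputable def ee (g : G) : (G ⧸ K) → ℤ := Pi.single (g : G ⧸ K) 1

theorem rho_ee (h g : G) : rho K h (ee K g) = ee K (h * g) := by
  classical
  funext e
  rw [rho_apply]
  unfold ee
  by_cases he : e = ((h * g : G) : G ⧸ K)
  · subst he
    rw [Pi.single_eq_same]
    have : h⁻¹ • (((h * g : G) : G ⧸ K)) = (g : G ⧸ K) := by
      rw [inv_smul_eq_iff]
      rfl
    rw [this, Pi.single_eq_same]
  · rw [Pi.single_eq_of_ne he, Pi.single_eq_of_ne]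
    intro h1
    apply he
    rw [inv_smul_eq_iff] at h1
    rw [h1]
    rfl

theorem ee_eq {g g' : G} (h : g⁻¹ * g' ∈ K) : ee K g = ee K g' := by
  unfold ee
  rw [(QuotientGroup.eq (s := K)).2 h]

/-- the affine action -/
theorem exists_affine (h : Amg A B K) :
    ∃ Φ : G →* Equiv.Perm ((G ⧸ K) → ℤ), (∀ a ∈ A, Φ a 0 = 0) ∧
      (∀ b ∈ B, Φ b (ee K 1) = ee K 1) ∧
      ∀ g x y, Φ g x - Φ g y = rho K g (x - y) := by
  let τ : Equiv.Perm ((G ⧸ K) → ℤ) := Equiv.addRight (ee K 1)
  have hτ : ∀ x, τ x = x + ee K 1 := fun x => rfl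
  have hτ' : ∀ x, τ⁻¹ x = x - ee K 1 := fun x => by
    rw [Equiv.Perm.inv_eq_iff_eq, hτ]
    simp
  have hconj : ∀ (g : G) x, MulAut.conj τ (rho K g) x =
      rho K g x - rho K g (ee K 1) + ee K 1 := by
    intro g x
    rw [MulAut.conj_apply, Equiv.Perm.mul_apply, Equiv.Perm.mul_apply, hτ', hτ, rho_sub]
  obtain ⟨Φ, h1, h2⟩ := h.univ _ ((rho K).comp A.subtype)
    (((MulAut.conj τ).toMonoidHom.comp (rho K)).comp B.subtype) (by
      intro c hc
      apply Equiv.ext
      intro x
      show rho K c x = MulAut.conj τ (rho K c) x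
      rw [hconj, rho_ee, mul_one, ee_eq (K := K) (g := c) (g' := 1)]
      · simp
      · rw [mul_one]
        exact K.inv_mem hc)
  refine ⟨Φ, fun a ha => ?_, fun b hb => ?_, ?_⟩
  · rw [h1 ⟨a, ha⟩]
    exact rho_zero _
  · rw [h2 ⟨b, hb⟩]
    show MulAut.conj τ (rho K b) _ = _
    rw [hconj]
    simp
  · let P : Subgroup G :=
      { carrier := {g | ∀ x y, Φ g x - Φ g y = rho K g (x - y)}
        one_mem' := by intro x y; simp
        mul_mem' := by
          intro a b ha hb x y
          rw [map_mul, map_mul, Equiv.Perm.mul_apply, Equiv.Perm.mul_apply, Equiv.Perm.mul_apply,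
            ha, hb]
        inv_mem' := by
          intro a ha x y
          rw [map_inv, map_inv, Equiv.Perm.eq_inv_iff_eq, ← ha,
            show Φ a ((Φ a)⁻¹ x) = x from Equiv.apply_symm_apply _ _,
            show Φ a ((Φ a)⁻¹ y) = y from Equiv.apply_symm_apply _ _] }
    have hP : P = ⊤ := by
      rw [eq_top_iff, ← h.gen, sup_le_iff]
      constructor
      · intro a ha x y
        rw [h1 ⟨a, ha⟩]
        rfl
      · intro b hb x y
        rw [h2 ⟨b, hb⟩]
        show MulAut.conj τ (rho K b) x - MulAut.conj τ (rho K b) y = _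
        rw [hconj, hconj, rho_sub]
        abel
    intro g
    have : g ∈ P := by rw [hP]; trivial
    exact this

/-- the potential -/
theorem exists_pot (h : Amg A B K) :
    ∃ pot : VV A B → ((G ⧸ K) → ℤ), ∀ g, pot (vB A B g) - pot (vA A B g) = ee K g := by
  obtain ⟨Φ, h1, h2, h3⟩ := exists_affine h
  let pA : G ⧸ A → ((G ⧸ K) → ℤ) := fun q => Quotient.liftOn' q (fun g => Φ g 0) (by
    intro a b hab
    rw [QuotientGroup.leftRel_apply] at hab
    have : b = a * (a⁻¹ * b) := by group
    show Φ a 0 = Φ b 0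
    rw [this, map_mul, Equiv.Perm.mul_apply, h1 _ hab])
  let pB : G ⧸ B → ((G ⧸ K) → ℤ) := fun q =>
    Quotient.liftOn' q (fun g => Φ g (ee K 1)) (by
      intro a b hab
      rw [QuotientGroup.leftRel_apply] at hab
      have : b = a * (a⁻¹ * b) := by group
      show Φ a _ = Φ b _
      rw [this, map_mul, Equiv.Perm.mul_apply, h2 _ hab])
  refine ⟨Sum.elim pA pB, fun g => ?_⟩
  show Φ g (ee K 1) - Φ g 0 = _
  rw [h3, sub_zero, rho_ee, mul_one]

theorem inter (h : Amg A B K) {g : G} (h1 : g ∈ A) (h2 : g ∈ B) : g ∈ K := by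
  classical
  obtain ⟨pot, hp⟩ := exists_pot h
  have e1 := hp g
  have e2 := hp 1
  have e3 : vA A B 1 = vA A B g := by rw [vA_eq]; simpa using h1
  have e4 : vB A B 1 = vB A B g := by rw [vB_eq]; simpa using h2
  rw [e3, e4, e1] at e2
  by_contra hcon
  have e5 := congrFun e2 (g : G ⧸ K)
  unfold ee at e5
  rw [Pi.single_eq_same, Pi.single_eq_of_ne] at e5
  · exact one_ne_zero e5
  · intro e6
    have e7 := (QuotientGroup.eq (s := K)).1 e6
    rw [mul_one] at e7
    exact hcon (by simpa using K.inv_mem e7)

theorem acyclic (h : Amg A B K) : (atree A B).IsAcyclic := by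
  classical
  obtain ⟨pot, hp⟩ := exists_pot h
  rw [SimpleGraph.isAcyclic_iff_forall_adj_isBridge]
  have key : ∀ (g : G),
      ¬ ((atree A B).deleteEdges {s(vA A B g, vB A B g)}).Reachable
        (vA A B g) (vB A B g) := by
    intro g hr
    let e : G ⧸ K := (g : G ⧸ K)
    have hstep : ∀ u v, ((atree A B).deleteEdges {s(vA A B g, vB A B g)}).Adj u v →
        pot u e = pot v e := by
      have main : ∀ (g' : G), s(vA A B g', vB A B g') ≠ s(vA A B g, vB A B g) →
          pot (vA A B g') e = pot (vB A B g') e := by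
        intro g' hne
        have h1 := congrFun (hp g') e
        rw [Pi.sub_apply] at h1
        have h2 : ee K g' e = 0 := by
          unfold ee
          rw [Pi.single_eq_of_ne]
          intro he
          apply hne
          have he3 := (QuotientGroup.eq (s := K)).1 he
          have e1 : vA A B g = vA A B g' := by
            rw [vA_eq]
            exact h.le_left he3
          have e2 : vB A B g = vB A B g' := by
            rw [vB_eq]
            exact h.le_right he3
          rw [e1, e2]
        rw [h2] at h1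
        omega
      intro u v huv
      rw [SimpleGraph.deleteEdges_adj] at huv
      obtain ⟨⟨g', h'⟩, hne⟩ := huv
      rcases h' with ⟨rfl, rfl⟩ | ⟨rfl, rfl⟩
      · exact main g' (by simpa using hne)
      · exact (main g' (by
          intro h1
          apply hne
          rw [Set.mem_singleton_iff, Sym2.eq_swap]
          exact h1)).symm
    have hreach : ∀ u v, ((atree A B).deleteEdges {s(vA A B g, vB A B g)}).Reachable u v →
        pot u e = pot v e := by
      rintro u v ⟨p⟩
      induction p with
      | nil => rfl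
      | cons h1 _ ih => exact (hstep _ _ h1).trans ih
    have h1 := hreach _ _ hr
    have h2 := congrFun (hp g) e
    rw [Pi.sub_apply, ← h1, sub_self] at h2
    unfold ee at h2
    rw [Pi.single_eq_same] at h2
    exact zero_ne_one h2
  rintro u v ⟨g, h'⟩
  rcases h' with ⟨rfl, rfl⟩ | ⟨rfl, rfl⟩
  · exact key g
  · rw [Sym2.eq_swap]
    exact key g

theorem isTree (h : Amg A B K) : (atree A B).IsTree := ⟨connected h, acyclic h⟩

theorem noInv (g : G) (u v : VV A B) (h : (atree A B).Adj u v) :
    ¬ (g • u = v ∧ g • v = u) := by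
  rintro ⟨h1, h2⟩
  obtain ⟨x, h⟩ := h
  rcases h with ⟨rfl, rfl⟩ | ⟨rfl, rfl⟩
  · exact Sum.inl_ne_inr h1
  · exact Sum.inl_ne_inr h2

/-- the stabilizers of the edges are conjugates of `K` -/
theorem edge_stab (h : Amg A B K) {g : G} {u v : VV A B} (huv : (atree A B).Adj u v)
    (hu : g • u = u) (hv : g • v = v) : ∃ x : G, ∃ k ∈ K, g = x * k * x⁻¹ := by
  obtain ⟨x, h'⟩ := huv
  have key : g • vA A B x = vA A B x → g • vB A B x = vB A B x → ∃ k ∈ K, g = x * k * x⁻¹ := by
    intro h1 h2
    rw [smul_vA, eq_comm, vA_eq] at h1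
    rw [smul_vB, eq_comm, vB_eq] at h2
    exact ⟨_, inter h h1 h2, by group⟩
  rcases h' with ⟨rfl, rfl⟩ | ⟨rfl, rfl⟩
  · exact ⟨x, key hu hv⟩
  · exact ⟨x, key hv hu⟩

end Potential

end Q27.FJT
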