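import Pool.Agent.Q30.FJ.Nov
import Pool.Agent.Q30.FJ.FPr
import Pool.Agent.Q181.MCL.VSol

/-!
# Transfinite extensions: ascending series of normal subgroups
-/

set_option autoImplicit false

namespace Q27.TE

open Pool.Agent.Y110.FJ (ClosedE)
open Pool.Agent.Y462.SS (Closed)
open Q30.FJ (ClosedOver ClosedF)

variable {C D : ∀ (G : Type) [Group G], Prop}

/-- The normal subgroups of `G` that are reached from the trivial subgroup by (transfinitely many)
extensions from `M` to `N`, where `M ≤ N` are normal in `G` and modulo `M` the subgroup generated by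
`N` and `g` is in the class `C` for each `g` in `G`, and by directed unions. -/
inductive Asc (C : ∀ (G : Type) [Group G], Prop) {G : Type} [Group G] : Subgroup G → Prop
  | bot : Asc C ⊥
  | step (M N : Subgroup G) [M.Normal] [N.Normal] : Asc C M → M ≤ N →
      (∀ g : G, C ↥((N ⊔ Subgroup.zpowers g).map (QuotientGroup.mk' M))) → Asc C N
  | union (S : Set (Subgroup G)) : S.Nonempty → DirectedOn (· ≤ ·) S →
      (∀ M ∈ S, Asc C M) → Asc C (sSup S)

theorem sSup_normal {G : Type} [Group G] (S : Set (Subgroup G)) (hS : S.Nonempty)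
    (hd : DirectedOn (· ≤ ·) S) (h : ∀ M ∈ S, M.Normal) : (sSup S).Normal := by
  constructor
  intro x hx g
  rw [Subgroup.mem_sSup_of_directedOn hS hd] at hx ⊢
  obtain ⟨M, hM, hx⟩ := hx
  exact ⟨M, hM, (h M hM).conj_mem x hx g⟩

theorem Asc.normal {G : Type} [Group G] {N : Subgroup G} (h : Asc C N) : N.Normal := by
  induction h with
  | bot => infer_instance
  | step M N _ _ _ _ => infer_instance
  | union S hS hd _ ih => exact sSup_normal S hS hd ih

/-- a subgroup on which a homomorphism with kernel `M` to a group in the class is defined -/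
theorem map_mem (hC : Closed C) {G : Type} [Group G] (M A : Subgroup G) [M.Normal]
    (L : Type) [Group L] (hL : C L) (ψ : A →* L) (hψ : ∀ x, ψ x = 1 ↔ (x : G) ∈ M) :
    C ↥(A.map (QuotientGroup.mk' M)) := by
  let f : A →* ↥(A.map (QuotientGroup.mk' M)) := (QuotientGroup.mk' M).subgroupMap A
  have hf : Function.Surjective f := (QuotientGroup.mk' M).subgroupMap_surjective A
  have hfk : ∀ x, f x = 1 ↔ (x : G) ∈ M := by
    intro x
    constructor
    · intro h
      have h1 : QuotientGroup.mk' M (x : G) = 1 := congrArg Subtype.val h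
      exact (QuotientGroup.eq_one_iff _).1 h1
    · intro h
      apply Subtype.ext
      exact (QuotientGroup.eq_one_iff _).2 h
  have hk : f.ker ≤ ψ.ker := fun x hx => (hψ x).2 ((hfk x).1 hx)
  let χ := f.liftOfSurjective hf ⟨ψ, hk⟩
  have hχ : ∀ x, χ (f x) = ψ x := fun x => f.liftOfRightInverse_comp_apply _ _ ⟨ψ, hk⟩ x
  refine hC.of_injective _ L χ ?_ hL
  rw [injective_iff_map_eq_one]
  intro y hy
  obtain ⟨x, rfl⟩ := hf y
  rw [hχ] at hy
  exact (hfk x).2 ((hψ x).1 hy)

/-- the main property -/
theorem Asc.main (hC : ClosedE C) {G : Type} [Group G] {N : Subgroup G} (h : Asc C N) :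
    ∀ (W : Subgroup G) (H : Type) (_ : Group H) (ψ : W →* H), C H →
      (∀ x, ψ x = 1 ↔ (x : G) ∈ N) → C W := by
  induction h with
  | bot =>
    intro W H _ ψ hH hψ
    refine hC.base.of_injective _ H ψ ?_ hH
    rw [injective_iff_map_eq_one]
    intro x hx
    exact Subtype.ext (Subgroup.mem_bot.1 ((hψ x).1 hx))
  | step M N hM hMN hfac ih =>
    intro W H _ ψ hH hψ
    obtain ⟨K', hK'⟩ : ∃ K', K' = M.subgroupOf W := ⟨_, rfl⟩
    obtain ⟨K, hK⟩ : ∃ K, K = N.subgroupOf W := ⟨_, rfl⟩
    have hK'n : K'.Normal := by rw [hK']; infer_instance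
    have hKn : K.Normal := by rw [hK]; infer_instance
    -- subgroups of `N ⊔ zpowers g`
    have key : ∀ g : W, C ↥((K ⊔ Subgroup.zpowers g).map (QuotientGroup.mk' K')) := by
      intro g
      have hle : ∀ x ∈ K ⊔ Subgroup.zpowers g, (x : G) ∈ N ⊔ Subgroup.zpowers (g : G) := by
        intro x hx
        have h1 : K ⊔ Subgroup.zpowers g ≤ (N ⊔ Subgroup.zpowers (g : G)).subgroupOf W := by
          refine sup_le ?_ ?_
          · rw [hK]
            exact Subgroup.comap_mono le_sup_left
          · rw [Subgroup.zpowers_le, Subgroup.mem_subgroupOf]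
            exact (le_sup_right : _ ≤ N ⊔ Subgroup.zpowers (g : G)) (Subgroup.mem_zpowers _)
        exact Subgroup.mem_subgroupOf.1 (h1 hx)
      let j : ↥(K ⊔ Subgroup.zpowers g) →* ↥((N ⊔ Subgroup.zpowers (g : G)).map
          (QuotientGroup.mk' M)) :=
        MonoidHom.mk' (fun x => ⟨QuotientGroup.mk' M (x : W), _, hle x x.2, rfl⟩)
          (fun x y => rfl)
      refine map_mem hC.base K' _ _ (hfac g) j ?_
      intro x
      rw [hK', Subgroup.mem_subgroupOf]
      constructor
      · intro h
        have h1 : QuotientGroup.mk' M ((x : W) : G) = 1 := congrArg Subtype.val h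
        exact (QuotientGroup.eq_one_iff _).1 h1
      · intro h
        apply Subtype.ext
        exact (QuotientGroup.eq_one_iff _).2 h
    have hQ : C (W ⧸ K') := by
      have hn : (K.map (QuotientGroup.mk' K')).Normal :=
        Subgroup.Normal.map hKn _ (QuotientGroup.mk'_surjective K')
      refine Pool.Agent.Y529.FJ.t_ext C hC (W ⧸ K') (K.map (QuotientGroup.mk' K')) ?_ ?_ ?_
      · refine hC.base.of_injective _ _ (Subgroup.inclusion (Subgroup.map_mono le_sup_left))
          (Subgroup.inclusion_injective _) (key 1)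
      · let χ : ((W ⧸ K') ⧸ K.map (QuotientGroup.mk' K')) →* H :=
          QuotientGroup.lift _ (QuotientGroup.lift K' ψ (fun x hx => (hψ x).2 (hMN (by
            rw [hK', Subgroup.mem_subgroupOf] at hx; exact hx)))) (by
              rintro _ ⟨x, hx, rfl⟩
              have hx' : (x : G) ∈ N := by
                have h3 : x ∈ K := hx
                rw [hK, Subgroup.mem_subgroupOf] at h3
                exact h3
              exact (hψ x).2 hx')
        refine hC.base.of_injective _ H χ ?_ hH
        rw [injective_iff_map_eq_one]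
        intro y
        induction y using QuotientGroup.induction_on with
        | H y =>
          induction y using QuotientGroup.induction_on with
          | H x =>
            intro hx
            have h1 : (x : G) ∈ N := (hψ x).1 hx
            refine (QuotientGroup.eq_one_iff _).2 ⟨x, ?_, rfl⟩
            show x ∈ K
            rw [hK, Subgroup.mem_subgroupOf]
            exact h1
      · intro y _
        induction y using QuotientGroup.induction_on with
        | H g =>
          have h1 : K.map (QuotientGroup.mk' K') ⊔ Subgroup.zpowers (g : W ⧸ K') =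
              (K ⊔ Subgroup.zpowers g).map (QuotientGroup.mk' K') := by
            rw [Subgroup.map_sup, MonoidHom.map_zpowers]
            rfl
          rw [h1]
          exact key g
    refine ih W (W ⧸ K') inferInstance (QuotientGroup.mk' K') hQ ?_
    intro x
    rw [QuotientGroup.mk'_apply, QuotientGroup.eq_one_iff, hK', Subgroup.mem_subgroupOf]
  | union S hS hd hSA ih =>
    intro W H _ ψ hH hψ
    have hnS : (sSup S).Normal := sSup_normal S hS hd (fun M hM => (hSA M hM).normal)
    have hmem : ∀ x, x ∈ sSup S ↔ ∃ M ∈ S, x ∈ M := fun x => by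
      rw [Subgroup.mem_sSup_of_directedOn hS hd]
    obtain ⟨K, hK⟩ : ∃ K, K = (sSup S).subgroupOf W := ⟨_, rfl⟩
    have hKn : K.Normal := by rw [hK]; infer_instance
    have hmK : ∀ x : W, x ∈ K ↔ ∃ M ∈ S, (x : G) ∈ M := fun x => by
      rw [hK, Subgroup.mem_subgroupOf, hmem]
    have hne : Nonempty S := hS.to_subtype
    have hdir : ∀ i j : S, ∃ k : S, i ≤ k ∧ j ≤ k := by
      intro i j
      obtain ⟨k, hk, h1, h2⟩ := hd i i.2 j j.2
      exact ⟨⟨k, hk⟩, h1, h2⟩
    refine Pool.Agent.Y529.FJ.t_ext C hC W K ?_ ?_ ?_
    · -- the kernel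
      refine Pool.Agent.Y430.SS.of_directed hC.base K S hdir
        (fun M => ((M : Subgroup G).subgroupOf W).subgroupOf K) ?_ ?_ ?_
      · intro M M' h
        exact Subgroup.comap_mono (Subgroup.comap_mono h)
      · intro x
        obtain ⟨M, hM, hx⟩ := (hmK x).1 x.2
        exact ⟨⟨M, hM⟩, by rw [Subgroup.mem_subgroupOf, Subgroup.mem_subgroupOf]; exact hx⟩
      · intro M
        have h1 : C ↥((M : Subgroup G) ⊓ W) := by
          refine ih M M.2 ((M : Subgroup G) ⊓ W) PUnit inferInstance 1
            (Pool.Agent.Y812.SS.C_subsingleton hC.base _) ?_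
          intro x
          exact ⟨fun _ => x.2.1, fun _ => rfl⟩
        let j : ↥(((M : Subgroup G).subgroupOf W).subgroupOf K) →* ↥((M : Subgroup G) ⊓ W) :=
          MonoidHom.mk' (fun x => ⟨((x : K) : W), ⟨by
            have h2 := x.2
            rw [Subgroup.mem_subgroupOf, Subgroup.mem_subgroupOf] at h2
            exact h2, ((x : K) : W).2⟩⟩) (fun x y => rfl)
        refine hC.base.of_injective _ _ j ?_ h1
        intro x y hxy
        have h2 : (j x : G) = (j y : G) := by rw [hxy]
        exact Subtype.ext (Subtype.ext (Subtype.ext h2))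
    · -- the quotient
      let χ : (W ⧸ K) →* H := QuotientGroup.lift K ψ (fun x hx => (hψ x).2 (by
        rw [hK, Subgroup.mem_subgroupOf] at hx; exact hx))
      refine hC.base.of_injective _ H χ ?_ hH
      rw [injective_iff_map_eq_one]
      intro y
      induction y using QuotientGroup.induction_on with
      | H x =>
        intro hx
        refine (QuotientGroup.eq_one_iff _).2 ?_
        rw [hK, Subgroup.mem_subgroupOf]
        exact (hψ x).1 hx
    · -- the cyclic extensions
      intro g hg
      -- the groups `(M ∩ W) ⟨g⟩`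
      let U : S → Subgroup W := fun M => (M : Subgroup G).subgroupOf W ⊔ Subgroup.zpowers g
      have hU : ∀ M, U M ≤ K ⊔ Subgroup.zpowers g := by
        intro M
        refine sup_le_sup ?_ le_rfl
        intro x hx
        exact (hmK x).2 ⟨M, M.2, Subgroup.mem_subgroupOf.1 hx⟩
      have hUC : ∀ M : S, C (U M) := by
        intro M
        have hMn : (M : Subgroup G).Normal := (hSA M M.2).normal
        have hMW : ((M : Subgroup G).subgroupOf W).Normal := inferInstance
        -- `U M` as a subgroup of `G`
        have h1 : C ↥((U M).map W.subtype) := by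
          let ρ : ↥((U M).map W.subtype) →* H := ψ.comp (MonoidHom.mk' (fun x =>
            (⟨(x : G), by obtain ⟨y, _, hy⟩ := x.2; rw [← hy]; exact y.2⟩ : W)) (fun x y => rfl))
          refine ih M M.2 ((U M).map W.subtype) H inferInstance ρ hH ?_
          rintro ⟨_, y, hy, rfl⟩
          have h2 : ρ ⟨_, y, hy, rfl⟩ = ψ y := rfl
          rw [h2, hψ]
          constructor
          · intro hyN
            have hyN' : y ∈ K := by rw [hK, Subgroup.mem_subgroupOf]; exact hyN
            obtain ⟨m, hm, z, hz, hmz⟩ := (Subgroup.mem_sup_of_normal_left).1 hy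
            obtain ⟨k, rfl⟩ := Subgroup.mem_zpowers_iff.1 hz
            have hmK' : m ∈ K := (hmK m).2 ⟨M, M.2, Subgroup.mem_subgroupOf.1 hm⟩
            have hgk : g ^ k ∈ K := by
              have h3 : g ^ k = m⁻¹ * y := by rw [← hmz]; group
              rw [h3]
              exact K.mul_mem (K.inv_mem hmK') hyN'
            have hk0 : k = 0 := by
              by_contra hk0
              have h4 : g ^ k.natAbs ∈ K := by
                rcases Int.natAbs_eq k with h5 | h5
                · rw [h5, zpow_natCast] at hgk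
                  exact hgk
                · rw [h5, zpow_neg, zpow_natCast] at hgk
                  exact K.inv_mem_iff.1 hgk
              exact hg k.natAbs (Int.natAbs_pos.2 hk0) h4
            rw [hk0, zpow_zero, mul_one] at hmz
            subst hmz
            exact Subgroup.mem_subgroupOf.1 hm
          · intro hyM
            exact (hmem _).2 ⟨M, M.2, hyM⟩
        refine hC.base.of_injective _ _ (MonoidHom.mk' (fun x : U M =>
          (⟨((x : W) : G), ⟨(x : W), x.2, rfl⟩⟩ : ↥((U M).map W.subtype))) (fun x y => rfl)) ?_ h1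
        intro x y hxy
        have h2 := congrArg Subtype.val hxy
        exact Subtype.ext (Subtype.ext h2)
      refine Pool.Agent.Y430.SS.of_directed hC.base _ S hdir
        (fun M => (U M).subgroupOf (K ⊔ Subgroup.zpowers g)) ?_ ?_ ?_
      · intro M M' h
        exact Subgroup.comap_mono (sup_le_sup (Subgroup.comap_mono h) le_rfl)
      · intro x
        obtain ⟨m, hm, z, hz, hmz⟩ := (Subgroup.mem_sup_of_normal_left).1 x.2
        obtain ⟨M, hM, hmM⟩ := (hmK m).1 hm
        refine ⟨⟨M, hM⟩, ?_⟩
        rw [Subgroup.mem_subgroupOf, ← hmz]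
        exact Subgroup.mul_mem _ ((le_sup_left : _ ≤ U ⟨M, hM⟩) (Subgroup.mem_subgroupOf.2 hmM))
          ((le_sup_right : _ ≤ U ⟨M, hM⟩) hz)
      · intro M
        refine hC.base.of_injective _ _ (MonoidHom.mk' (fun x : ↥((U M).subgroupOf
          (K ⊔ Subgroup.zpowers g)) => (⟨((x : ↥(K ⊔ Subgroup.zpowers g)) : W),
            Subgroup.mem_subgroupOf.1 x.2⟩ : U M)) (fun x y => rfl)) ?_ (hUC M)
        intro x y hxy
        have h2 := congrArg Subtype.val hxy
        exact Subtype.ext (Subtype.ext h2)

/-- **transfinite extensions** -/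
theorem Asc.over (hC : ClosedE C) (hD : ClosedOver C D) {G : Type} [Group G] {N : Subgroup G}
    [hN : N.Normal] (h : Asc C N) (hQ : D (G ⧸ N)) : D G := by
  refine hD.ext G (G ⧸ N) (QuotientGroup.mk' N) (QuotientGroup.mk'_surjective N) hQ ?_
  intro V hV
  refine h.main hC _ V inferInstance (MonoidHom.mk' (fun x => ⟨QuotientGroup.mk' N x.1, x.2⟩)
    (fun x y => rfl)) (Q30.FJ.vc_mem hC.base V hV) ?_
  intro x
  constructor
  · intro h1
    have h2 : QuotientGroup.mk' N (x : G) = 1 := congrArg Subtype.val h1
    exact (QuotientGroup.eq_one_iff _).1 h2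
  · intro h1
    apply Subtype.ext
    exact (QuotientGroup.eq_one_iff _).2 h1

end Q27.TE
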