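import Pool.Agent.Q27.FJT.Asc

/-!
# Transfinite extensions: kinds of factors, and the radical
-/

set_option autoImplicit false

namespace Q27.TE

open Pool.Agent.Y110.FJ (ClosedE)
open Pool.Agent.Y462.SS (Closed)
open Q30.FJ (ClosedOver ClosedF)
open Q181.MCL (VSol)

variable {C D : ∀ (G : Type) [Group G], Prop}

/-- all finitely generated subgroups are finite -/
def LocFin (K : Type) [Group K] : Prop := ∀ E : Set K, E.Finite → Finite ↥(Subgroup.closure E)

/-- every automorphism has a positive power which is inner -/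
def PeriodicOut (K : Type) [Group K] : Prop :=
  ∀ σ : MulAut K, ∃ (k : ℕ) (n : K), 0 < k ∧ σ ^ k = MulAut.conj n

/-- the factor group `N / M`, as a subgroup of `G ⧸ M` -/
abbrev fac {G : Type} [Group G] (M N : Subgroup G) [M.Normal] : Subgroup (G ⧸ M) :=
  N.map (QuotientGroup.mk' M)

theorem closedOver_self (hC : ClosedE C) : ClosedOver C C := ⟨hC.base.of_injective, hC.ext⟩

theorem cyc_quot (hC : Closed C) {V : Type} [Group V] (L : Subgroup V) [L.Normal] (c : V)
    (hc : L ⊔ Subgroup.zpowers c = ⊤) : C (V ⧸ L) := by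
  have h1 : Subgroup.zpowers (c : V ⧸ L) = ⊤ := by
    rw [eq_top_iff]
    intro y _
    induction y using QuotientGroup.induction_on with
    | H x =>
      have hx : x ∈ L ⊔ Subgroup.zpowers c := by rw [hc]; trivial
      obtain ⟨l, hl, z, hz, rfl⟩ := (Subgroup.mem_sup_of_normal_left).1 hx
      obtain ⟨k, rfl⟩ := Subgroup.mem_zpowers_iff.1 hz
      refine Subgroup.mem_zpowers_iff.2 ⟨k, ?_⟩
      rw [QuotientGroup.mk_mul, (QuotientGroup.eq_one_iff l).2 hl, one_mul, QuotientGroup.mk_zpow]
  have h2 : C (⊤ : Subgroup (V ⧸ L)) := by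
    refine Q30.FJ.vc_mem hC ⊤ ⟨(c : V ⧸ L), trivial, ?_⟩
    rw [h1, Subgroup.relIndex_self]
    exact one_ne_zero
  exact Pool.Agent.Y812.SS.C_equiv hC Subgroup.topEquiv.symm h2

/-- the kinds of kernels -/
def Kind (C : ∀ (G : Type) [Group G], Prop) (K : Type) [Group K] : Prop :=
  IsFreeGroup K ∨ VSol K ∨ LocFin K ∨ (C K ∧ PeriodicOut K)

theorem Kind.equiv (hC : Closed C) {K L : Type} [Group K] [Group L] (e : K ≃* L)
    (h : Kind C K) : Kind C L := by
  rcases h with h | ⟨S, h1, h2⟩ | h | ⟨h1, h2⟩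
  · left
    exact IsFreeGroup.ofMulEquiv e
  · right; left
    refine ⟨S.comap e.symm.toMonoidHom, ?_, ?_⟩
    · constructor
      rw [Subgroup.index_comap_of_surjective S (f := e.symm.toMonoidHom) e.symm.surjective]
      exact h1.index_ne_zero
    · have h3 : Function.Injective (MonoidHom.mk' (fun x : ↥(S.comap e.symm.toMonoidHom) =>
          (⟨e.symm (x : L), x.2⟩ : S)) (fun x y => by
            apply Subtype.ext
            show e.symm ((x : L) * (y : L)) = e.symm (x : L) * e.symm (y : L)
            rw [map_mul])) := by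
        intro x y hxy
        have h4 : e.symm (x : L) = e.symm (y : L) := congrArg Subtype.val hxy
        exact Subtype.ext (e.symm.injective h4)
      exact Group.isSolvable_of_isSolvable_injective h3
  · right; right; left
    intro E hE
    have h3 := h (e.symm '' E) (hE.image _)
    have h4 : (Subgroup.closure (e.symm '' E)).map e.toMonoidHom = Subgroup.closure E := by
      rw [MonoidHom.map_closure]
      congr 1
      ext x
      constructor
      · rintro ⟨_, ⟨y, hy, rfl⟩, rfl⟩
        simpa using hy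
      · intro hx
        exact ⟨_, ⟨x, hx, rfl⟩, by simp⟩
    rw [← h4]
    exact Finite.of_surjective _ (e.toMonoidHom.subgroupMap_surjective _)
  · right; right; right
    refine ⟨Pool.Agent.Y812.SS.C_equiv hC e.symm h1, ?_⟩
    intro σ
    obtain ⟨k, n, hk, hσ⟩ := h2 ((e.trans σ).trans e.symm)
    refine ⟨k, e n, hk, ?_⟩
    have h3 : ∀ (k : ℕ) (x : K), (((e.trans σ).trans e.symm : MulAut K) ^ k) x =
        e.symm ((σ ^ k) (e x)) := by
      intro k
      induction k with
      | zero => intro x; simp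
      | succ k ih =>
        intro x
        rw [pow_succ, MulAut.mul_apply, ih, pow_succ, MulAut.mul_apply]
        congr 2
        show e (e.symm (σ (e x))) = σ (e x)
        rw [e.apply_symm_apply]
    ext y
    have h4 := h3 k (e.symm y)
    rw [hσ, e.apply_symm_apply] at h4
    have h5 := congrArg e h4
    rw [e.apply_symm_apply] at h5
    rw [← h5, MulAut.conj_apply, MulAut.conj_apply, map_mul, map_mul, map_inv, e.apply_symm_apply]

/-- extensions of such kernels by cyclic groups -/
theorem kind_cyc (hF : ClosedF C) (hsol : ∀ (G : Type) [Group G], Group.IsSolvable G → C G)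
    {V : Type} [Group V] (L : Subgroup V) [L.Normal] (c : V) (hc : L ⊔ Subgroup.zpowers c = ⊤)
    (h : Kind C L) : C V := by
  have hC := hF.base
  have hQ := cyc_quot hC.base L c hc
  rcases h with h | h | h | ⟨h1, h2⟩
  · exact hF.free V L h hQ
  · refine Q181.MCL.loc_over hC (closedOver_self hC) hsol V L hQ ?_
    intro g E _ hEL
    refine ⟨L, hEL, fun x => ⟨fun hx => Subgroup.Normal.conj_mem inferInstance x hx g, fun hx => ?_⟩,
      L, inferInstance, MonoidHom.id L, Or.inl h, fun x _ hx => hx⟩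
    have h3 := Subgroup.Normal.conj_mem (inferInstance : L.Normal) _ hx g⁻¹
    simpa [mul_assoc] using h3
  · refine Q30.FJ.loc_fin hC V L ?_ hQ
    intro E hE hEL
    have h3 := h (Subtype.val ⁻¹' E) (hE.preimage Subtype.val_injective.injOn)
    have h4 : (Subgroup.closure ((Subtype.val : L → V) ⁻¹' E)).map L.subtype =
        Subgroup.closure E := by
      rw [MonoidHom.map_closure]
      congr 1
      ext x
      constructor
      · rintro ⟨y, hy, rfl⟩
        exact hy
      · intro hx
        exact ⟨⟨x, hEL hx⟩, hx, rfl⟩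
    rw [← h4]
    exact Finite.of_surjective _ (L.subtype.subgroupMap_surjective _)
  · refine Q30.FJ.inn C hC V L h1 hQ ?_
    intro g E _
    obtain ⟨k, n, hk, hσ⟩ := h2 (MulAut.conjNormal g)
    exact ⟨MulAut.conjNormal g, k, n, hk, hσ, fun x _ => MulAut.conjNormal_apply g x⟩

/-- factors of these kinds are admissible -/
theorem kind_fac (hF : ClosedF C) (hsol : ∀ (G : Type) [Group G], Group.IsSolvable G → C G)
    {G : Type} [Group G] (M N : Subgroup G) [M.Normal] [N.Normal] (h : Kind C (fac M N)) (g : G) :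
    C ↥((N ⊔ Subgroup.zpowers g).map (QuotientGroup.mk' M)) := by
  have hn : (fac M N).Normal := Subgroup.Normal.map inferInstance _ (QuotientGroup.mk'_surjective M)
  have hle : fac M N ≤ (N ⊔ Subgroup.zpowers g).map (QuotientGroup.mk' M) :=
    Subgroup.map_mono le_sup_left
  have hgm : QuotientGroup.mk' M g ∈ (N ⊔ Subgroup.zpowers g).map (QuotientGroup.mk' M) :=
    ⟨g, (le_sup_right : _ ≤ N ⊔ Subgroup.zpowers g) (Subgroup.mem_zpowers _), rfl⟩
  refine kind_cyc hF hsol
    ((fac M N).subgroupOf ((N ⊔ Subgroup.zpowers g).map (QuotientGroup.mk' M)))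
    ⟨QuotientGroup.mk' M g, hgm⟩ ?_ ?_
  · rw [eq_top_iff]
    rintro ⟨_, x, hx, rfl⟩ _
    obtain ⟨n, hn', z, hz, rfl⟩ := (Subgroup.mem_sup_of_normal_left).1 hx
    obtain ⟨k, rfl⟩ := Subgroup.mem_zpowers_iff.1 hz
    have hnm : QuotientGroup.mk' M n ∈ (N ⊔ Subgroup.zpowers g).map (QuotientGroup.mk' M) :=
      hle ⟨n, hn', rfl⟩
    have h1 : (⟨QuotientGroup.mk' M (n * g ^ k), n * g ^ k, hx, rfl⟩ :
        ↥((N ⊔ Subgroup.zpowers g).map (QuotientGroup.mk' M))) =
        ⟨QuotientGroup.mk' M n, hnm⟩ * ⟨QuotientGroup.mk' M g, hgm⟩ ^ k := by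
      apply Subtype.ext
      show QuotientGroup.mk' M (n * g ^ k) = QuotientGroup.mk' M n * (QuotientGroup.mk' M g) ^ k
      rw [map_mul, map_zpow]
    rw [h1]
    refine Subgroup.mul_mem _ ((le_sup_left : _ ≤ _ ⊔ Subgroup.zpowers _) ?_)
      ((le_sup_right : _ ≤ _ ⊔ Subgroup.zpowers _) (Subgroup.zpow_mem_zpowers _ _))
    rw [Subgroup.mem_subgroupOf]
    exact ⟨n, hn', rfl⟩
  · exact Kind.equiv hF.base.base (Subgroup.subgroupOfEquivOfLe hle).symm h

/-- The normal subgroups reached from the trivial subgroup by extensions by normal factors that are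
abelian or locally finite, and by directed unions. -/
inductive AL {G : Type} [Group G] : Subgroup G → Prop
  | bot : AL ⊥
  | step (M N : Subgroup G) [M.Normal] [N.Normal] : AL M → M ≤ N →
      ((∀ a b : fac M N, a * b = b * a) ∨ LocFin (fac M N)) → AL N
  | union (S : Set (Subgroup G)) : S.Nonempty → DirectedOn (· ≤ ·) S →
      (∀ M ∈ S, AL M) → AL (sSup S)

theorem AL.normal {G : Type} [Group G] {N : Subgroup G} (h : AL N) : N.Normal := by
  induction h with
  | bot => infer_instance
  | step M N _ _ _ _ => infer_instance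
  | union S hS hd _ ih => exact sSup_normal S hS hd ih

theorem AL.asc (hF : ClosedF C) (hsol : ∀ (G : Type) [Group G], Group.IsSolvable G → C G)
    {G : Type} [Group G] {N : Subgroup G} (h : AL N) : Asc C N := by
  induction h with
  | bot => exact Asc.bot
  | step M N hM hMN hfac ih =>
    refine Asc.step M N ih hMN (kind_fac hF hsol M N ?_)
    rcases hfac with h | h
    · right; left
      refine ⟨⊤, inferInstance, ?_⟩
      have h1 : Group.IsSolvable (fac M N) := Group.isSolvable_of_comm h
      infer_instance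
    · right; right; left
      exact h
  | union S hS hd hSA ih => exact Asc.union S hS hd ih

theorem image_kind {G H : Type} [Group G] [Group H] (φ : G →* H) (K : Subgroup G)
    (h : (∀ a b : K, a * b = b * a) ∨ LocFin K) :
    (∀ a b : K.map φ, a * b = b * a) ∨ LocFin (K.map φ) := by
  rcases h with h | h
  · left
    rintro ⟨_, x, hx, rfl⟩ ⟨_, y, hy, rfl⟩
    apply Subtype.ext
    have h1 : x * y = y * x := congrArg Subtype.val (h ⟨x, hx⟩ ⟨y, hy⟩)
    show φ x * φ y = φ y * φ x
    rw [← map_mul, h1, map_mul]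
  · right
    intro E hE
    have hs := φ.subgroupMap_surjective K
    choose s hs' using hs
    have h1 := h (s '' E) (hE.image _)
    have h2 : (Subgroup.closure (s '' E)).map (φ.subgroupMap K) = Subgroup.closure E := by
      rw [MonoidHom.map_closure, Set.image_image]
      congr 1
      ext x
      constructor
      · rintro ⟨y, hy, rfl⟩
        show (φ.subgroupMap K) (s y) ∈ E
        rw [hs']
        exact hy
      · intro hx
        exact ⟨x, hx, hs' x⟩
    rw [← h2]
    exact Finite.of_surjective _ ((φ.subgroupMap K).subgroupMap_surjective _)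

theorem AL.sup {G : Type} [Group G] {M N : Subgroup G} (hM : AL M) (hN : AL N) : AL (M ⊔ N) := by
  have hMn := hM.normal
  induction hN with
  | bot => rwa [sup_bot_eq]
  | step N' N hN' hle hfac ih =>
    have hn1 : (M ⊔ N').Normal := inferInstance
    have hn2 : (M ⊔ N).Normal := inferInstance
    refine AL.step (M ⊔ N') (M ⊔ N) ih (sup_le_sup le_rfl hle) ?_
    obtain ⟨φ, hφ⟩ : ∃ φ : (G ⧸ N') →* (G ⧸ (M ⊔ N')), ∀ x : G,
        φ (QuotientGroup.mk' N' x) = QuotientGroup.mk' (M ⊔ N') x :=
      ⟨QuotientGroup.lift N' (QuotientGroup.mk' (M ⊔ N')) (fun x hx =>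
        (QuotientGroup.eq_one_iff _).2 ((le_sup_right : N' ≤ M ⊔ N') hx)), fun x => rfl⟩
    have h1 : fac (M ⊔ N') (M ⊔ N) = (fac N' N).map φ := by
      ext y
      constructor
      · rintro ⟨x, hx, rfl⟩
        obtain ⟨m, hm, n, hn, rfl⟩ := (Subgroup.mem_sup_of_normal_left).1 hx
        refine ⟨QuotientGroup.mk' N' n, ⟨n, hn, rfl⟩, ?_⟩
        rw [hφ, map_mul]
        have h2 : QuotientGroup.mk' (M ⊔ N') m = 1 :=
          (QuotientGroup.eq_one_iff _).2 ((le_sup_left : M ≤ M ⊔ N') hm)
        rw [h2, one_mul]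
      · rintro ⟨_, ⟨n, hn, rfl⟩, rfl⟩
        rw [hφ]
        exact ⟨n, (le_sup_right : N ≤ M ⊔ N) hn, rfl⟩
    rw [h1]
    exact image_kind φ _ hfac
  | union S hS hd _ ih =>
    have h1 : M ⊔ sSup S = sSup ((fun K => M ⊔ K) '' S) := by
      apply le_antisymm
      · obtain ⟨K, hK⟩ := hS
        refine sup_le (le_sup_left.trans (le_sSup ⟨K, hK, rfl⟩)) (sSup_le ?_)
        intro L hL
        exact le_sup_right.trans (le_sSup ⟨L, hL, rfl⟩)
      · refine sSup_le ?_
        rintro _ ⟨K, hK, rfl⟩
        exact sup_le_sup le_rfl (le_sSup hK)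
    rw [h1]
    refine AL.union _ (hS.image _) ?_ ?_
    · rintro _ ⟨K, hK, rfl⟩ _ ⟨L, hL, rfl⟩
      obtain ⟨P, hP, h2, h3⟩ := hd K hK L hL
      exact ⟨_, ⟨P, hP, rfl⟩, sup_le_sup le_rfl h2, sup_le_sup le_rfl h3⟩
    · rintro _ ⟨K, hK, rfl⟩
      exact ih K hK

/-- **the radical** -/
theorem exists_radical (G : Type) [Group G] : ∃ R : Subgroup G, AL R ∧ (∀ N, AL N → N ≤ R) ∧
    ∀ _ : R.Normal, ∀ B : Subgroup (G ⧸ R), B.Normal →
      ((∀ a b : B, a * b = b * a) ∨ LocFin B) → B = ⊥ := by
  have hR : AL (sSup {N : Subgroup G | AL N}) := by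
    refine AL.union _ ⟨⊥, AL.bot⟩ ?_ (fun M hM => hM)
    intro M hM N hN
    exact ⟨M ⊔ N, AL.sup hM hN, le_sup_left, le_sup_right⟩
  refine ⟨_, hR, fun N hN => le_sSup hN, ?_⟩
  intro hRn B hB h
  have hc : (B.comap (QuotientGroup.mk' (sSup {N : Subgroup G | AL N}))).Normal := inferInstance
  have h1 : fac (sSup {N : Subgroup G | AL N})
      (B.comap (QuotientGroup.mk' (sSup {N : Subgroup G | AL N}))) = B :=
    Subgroup.map_comap_eq_self_of_surjective (QuotientGroup.mk'_surjective _) B
  have h2 : AL (B.comap (QuotientGroup.mk' (sSup {N : Subgroup G | AL N}))) := by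
    refine AL.step _ _ hR ?_ (by rw [h1]; exact h)
    intro x hx
    rw [Subgroup.mem_comap, QuotientGroup.mk'_apply, (QuotientGroup.eq_one_iff x).2 hx]
    exact B.one_mem
  have h3 : B.comap (QuotientGroup.mk' (sSup {N : Subgroup G | AL N})) ≤
    sSup {N : Subgroup G | AL N} := le_sSup h2
  rw [eq_bot_iff]
  intro y hy
  induction y using QuotientGroup.induction_on with
  | H x =>
    have h4 : x ∈ sSup {N : Subgroup G | AL N} := h3 hy
    rw [Subgroup.mem_bot]
    exact (QuotientGroup.eq_one_iff x).2 h4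

end Q27.TE
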