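import Pool.Agent.Q27.FJT.AmgTree
import Pool.Agent.Q27.VRC.Hyp
import Pool.Agent.Q9.FJT.TreeA

/-!
# Amalgamated products over virtually cyclic subgroups

Homomorphisms to groups with property (VRC) which are injective on the amalgamated subgroup.
-/

set_option autoImplicit false

namespace Q27.FJT

open Pool.Agent.Y110.FJ
open Pool.Agent.Y462.SS (Closed)
open Q27.VR
open Monoid

variable {C : ∀ (G : Type) [Group G], Prop}

theorem triv_mem (hC : Closed C) (G : Type) [Group G] [Subsingleton G] : C G :=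
  hC.of_injective G (Multiplicative ℤ) 1 (Function.injective_of_subsingleton _) hC.int

theorem fin_mem (hC : Closed C) (G : Type) [Group G] [Finite G] : C G := by
  refine hC.finiteIndex G ⊥ inferInstance ?_
  exact triv_mem hC _

theorem pow_mem (hC : Closed C) : ∀ n : ℕ, C (Fin n → Multiplicative ℤ) := by
  intro n
  induction n with
  | zero => exact triv_mem hC _
  | succ n ih =>
    refine hC.of_injective _ (Multiplicative ℤ × (Fin n → Multiplicative ℤ))
      (MonoidHom.prod (Pi.evalMonoidHom _ 0) (MonoidHom.pi fun i => Pi.evalMonoidHom _ i.succ)) ?_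
      (hC.prod _ _ hC.int ih)
    intro x y h
    have h1 := congrArg Prod.fst h
    have h2 := congrArg Prod.snd h
    funext i
    refine Fin.cases h1 (fun j => ?_) i
    exact congrFun h2 j

/-- the translation part on the kernel -/
def trans (Ω : Type) : (SWperm Ω).ker →* (Ω → Multiplicative ℤ) where
  toFun w ω := Multiplicative.ofAdd (w.1.1 (ω, 0)).2
  map_one' := by
    funext ω
    rfl
  map_mul' v w := by
    funext ω
    have h1 : (w.1.1 (ω, 0)).1 = ω := by
      have := DFunLike.congr_fun w.2 ω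
      exact this
    have h2 : w.1.1 (ω, 0) = (ω, (w.1.1 (ω, 0)).2) := Prod.ext h1 rfl
    show Multiplicative.ofAdd ((v.1.1 (w.1.1 (ω, 0))).2) = _
    rw [h2, SW_apply]
    rfl

theorem trans_injective (Ω : Type) : Function.Injective (trans Ω) := by
  rw [injective_iff_map_eq_one]
  intro w hw
  apply Subtype.ext
  apply Subtype.ext
  apply Equiv.ext
  rintro ⟨ω, n⟩
  have h1 : (w.1.1 (ω, 0)).1 = ω := by
    have := DFunLike.congr_fun w.2 ω
    exact this
  have h2 : (w.1.1 (ω, 0)).2 = 0 := congrArg Multiplicative.toAdd (congrFun hw ω)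
  rw [SW_apply, h1, h2, zero_add]
  rfl

theorem sw_mem (hC : Closed C) (Ω : Type) [Finite Ω] : C (SW Ω) := by
  refine hC.finiteIndex _ (SWperm Ω).ker (Subgroup.finiteIndex_ker _) ?_
  refine hC.of_injective _ _ (trans Ω) (trans_injective Ω) ?_
  obtain ⟨n, ⟨e⟩⟩ := Finite.exists_equiv_fin Ω
  refine hC.of_injective _ _ (MonoidHom.pi fun i => Pi.evalMonoidHom _ (e.symm i) :
    (Ω → Multiplicative ℤ) →* (Fin n → Multiplicative ℤ)) ?_ (pow_mem hC n)
  intro x y h
  funext ω
  have h1 := congrFun h (e ω)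
  have h2 : x (e.symm (e ω)) = y (e.symm (e ω)) := h1
  rwa [e.symm_apply_apply] at h2

theorem sw_pow_ne (Ω : Type) (w : SW Ω) (hw : w ∈ (SWperm Ω).ker) (h : w ≠ 1) (n : ℕ)
    (hn : n ≠ 0) : w ^ n ≠ 1 := by
  intro h1
  apply h
  have h2 : trans Ω ⟨w, hw⟩ ^ n = 1 := by
    rw [← map_pow]
    have : (⟨w, hw⟩ : (SWperm Ω).ker) ^ n = 1 := Subtype.ext h1
    rw [this, map_one]
  have h3 : trans Ω ⟨w, hw⟩ = 1 := by
    funext ω
    have h4 := congrFun h2 ω
    have h5 : (n : ℤ) * Multiplicative.toAdd (trans Ω ⟨w, hw⟩ ω) = 0 := by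
      have := congrArg Multiplicative.toAdd h4
      simpa using this
    rcases mul_eq_zero.1 h5 with h6 | h6
    · exact absurd (by exact_mod_cast h6) hn
    · exact congrArg Multiplicative.ofAdd h6
  have h4 : (⟨w, hw⟩ : (SWperm Ω).ker) = 1 := trans_injective Ω (by rw [h3, map_one])
  exact congrArg Subtype.val h4

theorem vrc_sw (Ω : Type) [Finite Ω] : VRC (SW Ω) := by
  intro x
  by_cases hx : IsOfFinOrder x
  · refine vr_of_torsion x hx (fun y hy hy1 => ⟨(SWperm Ω).ker, inferInstance,
      Subgroup.finiteIndex_ker _, fun hyk => ?_⟩)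
    obtain ⟨k, rfl⟩ := hy
    obtain ⟨n, hn, h1⟩ := (isOfFinOrder_iff_pow_eq_one).1 (hx.zpow (i := k))
    exact sw_pow_ne Ω _ hyk hy1 n hn.ne' h1
  · apply det_vr
    have hfi : (SWperm Ω).ker.FiniteIndex := Subgroup.finiteIndex_ker _
    have h1 : x ^ (SWperm Ω).ker.index ∈ (SWperm Ω).ker := Subgroup.pow_index_mem _ _
    have h2 : x ^ (SWperm Ω).ker.index ≠ 1 := by
      intro h2
      apply hx
      exact isOfFinOrder_iff_pow_eq_one.2 ⟨_, Nat.pos_of_ne_zero hfi.index_ne_zero, h2⟩
    have h3 : trans Ω ⟨_, h1⟩ ≠ 1 := by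
      intro h3
      apply h2
      have h4 := trans_injective Ω (h3.trans (map_one _).symm)
      exact congrArg Subtype.val h4
    obtain ⟨ω, hω⟩ : ∃ ω, trans Ω ⟨_, h1⟩ ω ≠ 1 := by
      by_contra hcon
      push Not at hcon
      exact h3 (funext hcon)
    refine ⟨Ω, inferInstance, MonoidHom.id _, ω, ((SWperm Ω).ker.index : ℤ),
      ((x ^ (SWperm Ω).ker.index).1 (ω, 0)).2, ?_, ?_⟩
    · intro h4
      apply hω
      exact congrArg Multiplicative.ofAdd h4
    · rw [zpow_natCast]
      have h5 : ((x ^ (SWperm Ω).ker.index).1 (ω, 0)).1 = ω := by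
        have := DFunLike.congr_fun h1 ω
        exact this
      exact Prod.ext h5 rfl

/-- the induced homomorphism -/
noncomputable def indSW {G : Type} [Group G] (N : Subgroup G) (f : N →* Multiplicative ℤ) :
    G →* SW (G ⧸ N) :=
  mkSW (MulAction.toPermHom G (G ⧸ N)) (ic N f) (fun g h x => ic_mul N f g h x)

theorem indSW_base {G : Type} [Group G] (N : Subgroup G) (f : N →* Multiplicative ℤ) {g : G}
    (hg : g ∈ N) (h : indSW N f g = 1) : f ⟨g, hg⟩ = 1 := by
  have h1 := congrArg (fun w : SW (G ⧸ N) => (w.1 (((1 : G) : G ⧸ N), 0)).2) h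
  have h2 : ((indSW N f g).1 (((1 : G) : G ⧸ N), 0)).2 = ic N f g ((1 : G) : G ⧸ N) + 0 := rfl
  have h3 : ((1 : SW (G ⧸ N)).1 (((1 : G) : G ⧸ N), 0)).2 = 0 := rfl
  simp only [h2, h3, ic_base N f g hg, add_zero] at h1
  exact congrArg Multiplicative.ofAdd h1

/-- virtually cyclic subgroups of (VRC) groups are detected in groups of the class -/
theorem vrc_target (hC : Closed C) {P R : Type} [Group P] [Group R] (hP : VRC P) (φ : R →* P)
    (hφ : Function.Injective φ) (hR : VirtuallyCyclic R) :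
    ∃ (Q : Type) (_ : Group Q) (θ : P →* Q), C Q ∧ ∀ x, θ (φ x) = 1 → x = 1 := by
  classical
  -- a finite exceptional set suffices
  have key : ∀ (Q : Type) [Group Q] (θ : P →* Q), C Q → {x : R | θ (φ x) = 1}.Finite →
      ∃ (Q : Type) (_ : Group Q) (θ : P →* Q), C Q ∧ ∀ x, θ (φ x) = 1 → x = 1 := by
    intro Q _ θ hQ hfin
    have hfin' : Finite {x : R | θ (φ x) = 1} := hfin
    have h1 : ∀ x : {x : R | θ (φ x) = 1}, ∃ N : Subgroup P, N.Normal ∧ N.FiniteIndex ∧
        (φ x ∈ N → (x : R) = 1) := by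
      intro x
      by_cases hx : (x : R) = 1
      · exact ⟨⊤, inferInstance, inferInstance, fun _ => hx⟩
      · obtain ⟨N, h1, h2, h3⟩ := vrc_rf hP (φ x) (fun h => hx (hφ (by rw [h, map_one])))
        exact ⟨N, h1, h2, fun h => absurd h h3⟩
    choose N hN1 hN2 hN3 using h1
    have hn : (⨅ x, N x).Normal := Subgroup.normal_iInf_normal hN1
    have hf : (⨅ x, N x).FiniteIndex := Subgroup.finiteIndex_iInf hN2
    have hfq : Finite (P ⧸ (⨅ x, N x)) := Subgroup.finite_quotient_of_finiteIndex
    refine ⟨Q × (P ⧸ (⨅ x, N x)), inferInstance, θ.prod (QuotientGroup.mk' _),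
      hC.prod _ _ hQ (fin_mem hC _), ?_⟩
    intro x hx
    have h2 : θ (φ x) = 1 := congrArg Prod.fst hx
    have h3 : (QuotientGroup.mk' (⨅ x, N x)) (φ x) = 1 := congrArg Prod.snd hx
    have h4 : φ x ∈ ⨅ x, N x := (QuotientGroup.eq_one_iff _).1 h3
    exact hN3 ⟨x, h2⟩ ((Subgroup.mem_iInf.1 h4) ⟨x, h2⟩)
  by_cases hfin : Finite R
  · exact key (Multiplicative ℤ) 1 hC.int (Set.toFinite _)
  · obtain ⟨Z, hZ, hZfi⟩ := hR
    obtain ⟨⟨r, hr⟩, hr'⟩ := hZ.exists_generator
    have hz : Subgroup.zpowers r = Z := by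
      apply le_antisymm
      · rw [Subgroup.zpowers_le]
        exact hr
      · intro x hx
        obtain ⟨k, hk⟩ := Subgroup.mem_zpowers_iff.1 (hr' ⟨x, hx⟩)
        exact ⟨k, congrArg Subtype.val hk⟩
    have hrinf : ∀ n : ℤ, r ^ n = 1 → n = 0 := by
      intro n hn
      by_contra hn0
      apply hfin
      have h1 : IsOfFinOrder r := isOfFinOrder_iff_zpow_eq_one.2 ⟨n, hn0, hn⟩
      have h2 : Finite (Subgroup.zpowers r) := h1.finite_zpowers
      have h3 : Finite (R ⧸ Subgroup.zpowers r) := by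
        rw [hz]
        exact Subgroup.finite_quotient_of_finiteIndex
      exact Finite.of_equiv _ (Subgroup.groupEquivQuotientProdSubgroup (s := Subgroup.zpowers r)).symm
    obtain ⟨N, hN, hNfi, f, hf⟩ := vrc_char hP (φ r) (fun n hn => hrinf n (hφ (by
      rw [map_zpow, hn, map_one])))
    have hq : Finite (P ⧸ N) := Subgroup.finite_quotient_of_finiteIndex
    refine key (SW (P ⧸ N)) (indSW N f) (sw_mem hC _) ?_
    -- the kernel meets `⟨r⟩` trivially
    have h1 : ∀ j : ℤ, indSW N f (φ (r ^ j)) = 1 → j = 0 := by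
      intro j hj
      have h2 : indSW N f (φ r ^ (j * (N.index : ℤ))) = 1 := by
        rw [zpow_mul, map_zpow, ← map_zpow φ, hj, one_zpow]
      have h3 : φ r ^ (j * (N.index : ℤ)) ∈ N := by
        rw [zpow_mul, zpow_natCast]
        exact Subgroup.pow_index_mem _ _
      have h4 := indSW_base N f h3 h2
      rw [hf, ofAdd_eq_one] at h4
      rcases mul_eq_zero.1 h4 with h5 | h5
      · exact h5
      · exact absurd (by exact_mod_cast h5) hNfi.index_ne_zero
    have hqf : Finite (R ⧸ Subgroup.zpowers r) := by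
      rw [hz]
      exact Subgroup.finite_quotient_of_finiteIndex
    refine Set.Finite.of_finite_image (f := fun x : R => (x : R ⧸ Subgroup.zpowers r))
      (Set.toFinite _) ?_
    intro x hx y hy hxy
    obtain ⟨j, hj⟩ := Subgroup.mem_zpowers_iff.1 (QuotientGroup.eq.1 hxy)
    have h2 : indSW N f (φ (r ^ j)) = 1 := by
      rw [hj, map_mul, map_inv, map_mul, map_inv, hx, hy]
      simp
    rw [h1 j h2, zpow_zero] at hj
    have : x⁻¹ * y = 1 := hj.symm
    exact (inv_mul_eq_one.1 this)

/-- the two factors -/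
def Fam2 (A' B' : Type) : Bool → Type
  | false => A'
  | true => B'

instance fam2Group (A' B' : Type) [Group A'] [Group B'] : ∀ b, Group (Fam2 A' B' b)
  | false => inferInstanceAs (Group A')
  | true => inferInstanceAs (Group B')

/-- the two maps -/
def fam2 {K A' B' : Type} [Group K] [Group A'] [Group B'] (iA : K →* A') (iB : K →* B') :
    ∀ b, K →* Fam2 A' B' b
  | false => iA
  | true => iB

/-- two homomorphisms on the factors -/
def lift2 {A' B' W : Type} [Group A'] [Group B'] [Group W] (f : A' →* W) (g : B' →* W) :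
    ∀ b, Fam2 A' B' b →* W
  | false => f
  | true => g

/-- the target: a (VRC) group which contains both targets -/
theorem exists_rho (hC : Closed C) {G A' B' : Type} [Group G] [Group A'] [Group B']
    {A B K : Subgroup G} (h : Amg A B K) (hK : VirtuallyCyclic K) (α : A →* A') (β : B →* B')
    (hA' : VRC A') (hB' : VRC B') (hα : ∀ k (hk : k ∈ K), α ⟨k, h.le_left hk⟩ = 1 → k = 1)
    (hβ : ∀ k (hk : k ∈ K), β ⟨k, h.le_right hk⟩ = 1 → k = 1) :
    ∃ (Q : Type) (_ : Group Q) (ρ : G →* Q), C Q ∧ ∀ k ∈ K, ρ k = 1 → k = 1 := by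
  let iA : K →* A' := α.comp (Subgroup.inclusion h.le_left)
  let iB : K →* B' := β.comp (Subgroup.inclusion h.le_right)
  have hiA : Function.Injective iA := by
    rw [injective_iff_map_eq_one]
    intro k hk
    exact Subtype.ext (hα k.1 k.2 hk)
  have hiB : Function.Injective iB := by
    rw [injective_iff_map_eq_one]
    intro k hk
    exact Subtype.ext (hβ k.1 k.2 hk)
  have hfam : ∀ b, Function.Injective (fam2 iA iB b) := by
    intro b
    cases b
    · exact hiA
    · exact hiB
  let P := PushoutI (fam2 iA iB)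
  let jA : A' →* P := PushoutI.of (φ := fam2 iA iB) false
  let jB : B' →* P := PushoutI.of (φ := fam2 iA iB) true
  have hcomm : ∀ k, jA (iA k) = jB (iB k) := by
    intro k
    have h1 := PushoutI.of_apply_eq_base (fam2 iA iB) false k
    have h2 := PushoutI.of_apply_eq_base (fam2 iA iB) true k
    exact h1.trans h2.symm
  have L : Lifts iA iB jA jB := by
    refine ⟨hcomm, ?_⟩
    intro W _ f g hfg
    let F : ∀ b, Fam2 A' B' b →* W := lift2 f g
    have hF : ∀ b, (F b).comp (fam2 iA iB b) = f.comp iA := by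
      intro b
      cases b
      · rfl
      · ext k
        exact (hfg k).symm
    refine ⟨PushoutI.lift F (f.comp iA) hF, fun p => ?_, fun q => ?_⟩
    · exact PushoutI.lift_of (φ := fam2 iA iB) F (f.comp iA) hF (i := false) p
    · exact PushoutI.lift_of (φ := fam2 iA iB) F (f.comp iA) hF (i := true) q
  have hgen : ∀ x : P, x ∈ Subgroup.closure (Set.range (io jA jB)) := by
    intro x
    have hA1 : ∀ a, jA a ∈ Subgroup.closure (Set.range (io jA jB)) := fun a =>
      Subgroup.subset_closure ⟨Sum.inl a, rfl⟩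
    have hB1 : ∀ b, jB b ∈ Subgroup.closure (Set.range (io jA jB)) := fun b =>
      Subgroup.subset_closure ⟨Sum.inr b, rfl⟩
    induction x using PushoutI.induction_on with
    | of i g =>
      cases i
      · exact hA1 g
      · exact hB1 g
    | base k =>
      have h1 := PushoutI.of_apply_eq_base (fam2 iA iB) false k
      rw [← h1]
      exact hA1 _
    | mul x y hx hy => exact mul_mem hx hy
  have hP : VRC P := main L hgen hA' hB' hiA hiB hK
  have hbase : Function.Injective (jA.comp iA) := by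
    have h1 : Function.Injective jA := PushoutI.of_injective hfam false
    exact h1.comp hiA
  obtain ⟨Q, hQ, θ, hCQ, hθ⟩ := vrc_target hC hP (jA.comp iA) hbase hK
  obtain ⟨ρ, h1, h2⟩ := h.univ Q ((θ.comp jA).comp α) ((θ.comp jB).comp β) (by
    intro c hc
    show θ (jA (iA ⟨c, hc⟩)) = θ (jB (iB ⟨c, hc⟩))
    rw [hcomm])
  refine ⟨Q, hQ, ρ, hCQ, ?_⟩
  intro k hk hk1
  have h3 := h1 ⟨k, h.le_left hk⟩
  have h4 : θ ((jA.comp iA) ⟨k, hk⟩) = 1 := h3.symm.trans hk1
  exact congrArg Subtype.val (hθ _ h4)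

/-- amalgamated products over virtually cyclic groups detected by (VRC) groups -/
theorem amg_mem (hC : ClosedE C) {G A' B' : Type} [Group G] [Group A'] [Group B']
    {A B K : Subgroup G} (h : Amg A B K) (hA : C A) (hB : C B)
    (hK : VirtuallyCyclic K) (α : A →* A') (β : B →* B')
    (hA' : VRC A') (hB' : VRC B') (hα : ∀ k (hk : k ∈ K), α ⟨k, h.le_left hk⟩ = 1 → k = 1)
    (hβ : ∀ k (hk : k ∈ K), β ⟨k, h.le_right hk⟩ = 1 → k = 1) : C G := by
  obtain ⟨Q, _, ρ, hCQ, hρ⟩ := exists_rho hC.base h hK α β hA' hB' hα hβ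
  refine Q9.FJT.tree_edge ρ hC hCQ (isTree h) (fun g u v huv => atree_adj g huv)
    (fun g u v huv => noInv g u v huv) ?_ ?_
  · intro g u v huv hu hv hg
    obtain ⟨x, k, hk, rfl⟩ := edge_stab h huv hu hv
    have h1 : ρ k = 1 := by
      rw [map_mul, map_mul, map_inv] at hg
      have := mul_inv_eq_one.1 hg
      exact mul_eq_left.1 this
    rw [hρ k hk h1]
    simp
  · intro v
    rcases vertex_cases v with ⟨g, rfl⟩ | ⟨g, rfl⟩
    · have h1 : MulAction.stabilizer G (vA A B g) ≤ A.map (MulAut.conj g).toMonoidHom := by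
        intro x hx
        have h2 : x • vA A B g = vA A B g := hx
        rw [smul_vA, eq_comm, vA_eq] at h2
        exact ⟨_, h2, by simp [MulAut.conj_apply, mul_assoc]⟩
      refine hC.base.of_injective _ A ((A.equivMapOfInjective _
        (MulAut.conj g).injective).symm.toMonoidHom.comp (Subgroup.inclusion h1)) ?_ hA
      exact (A.equivMapOfInjective _ (MulAut.conj g).injective).symm.injective.comp
        (Subgroup.inclusion_injective h1)
    · have h1 : MulAction.stabilizer G (vB A B g) ≤ B.map (MulAut.conj g).toMonoidHom := by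
        intro x hx
        have h2 : x • vB A B g = vB A B g := hx
        rw [smul_vB, eq_comm, vB_eq] at h2
        exact ⟨_, h2, by simp [MulAut.conj_apply, mul_assoc]⟩
      refine hC.base.of_injective _ B ((B.equivMapOfInjective _
        (MulAut.conj g).injective).symm.toMonoidHom.comp (Subgroup.inclusion h1)) ?_ hB
      exact (B.equivMapOfInjective _ (MulAut.conj g).injective).symm.injective.comp
        (Subgroup.inclusion_injective h1)

/-- infinite cyclic virtual retracts are detected by (VRC) groups -/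
theorem vr_target {A : Type} [Group A] (z : A) (hz : ∀ n : ℤ, z ^ n = 1 → n = 0)
    (h : IsVirtualRetract (Subgroup.zpowers z)) :
    ∃ (A' : Type) (_ : Group A') (α : A →* A'), VRC A' ∧
      ∀ x ∈ Subgroup.zpowers z, α x = 1 → x = 1 := by
  obtain ⟨N, hN, hle, ρ, hρ⟩ := h
  have hex : ∀ k : N, ∃ n : ℤ, z ^ n = (ρ k : A) := fun k => (ρ k).2
  choose e he using hex
  have hinj : ∀ m n : ℤ, z ^ m = z ^ n → m = n := by
    intro m n hmn
    have : z ^ (m - n) = 1 := by rw [zpow_sub, hmn, mul_inv_cancel]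
    have := hz _ this
    omega
  let f : N →* Multiplicative ℤ :=
    { toFun := fun k => Multiplicative.ofAdd (e k)
      map_one' := by
        rw [ofAdd_eq_one]
        apply hinj
        rw [he, map_one, zpow_zero]
        rfl
      map_mul' := by
        intro k l
        rw [← ofAdd_add]
        congr 1
        apply hinj
        rw [he, zpow_add, he, he, map_mul]
        rfl }
  have hq : Finite (A ⧸ N) := Subgroup.finite_quotient_of_finiteIndex
  refine ⟨SW (A ⧸ N), inferInstance, indSW N f, vrc_sw _, ?_⟩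
  rintro _ ⟨n, rfl⟩ h1
  have h2 : z ^ n ∈ N := hle ⟨n, rfl⟩
  have h3 := indSW_base N f h2 h1
  have h4 : e ⟨z ^ n, h2⟩ = 0 := congrArg Multiplicative.toAdd h3
  have h5 : z ^ (e ⟨z ^ n, h2⟩) = z ^ n := by
    rw [he]
    exact congrArg Subtype.val (hρ ⟨z ^ n, ⟨n, rfl⟩⟩)
  rw [h4, zpow_zero] at h5
  exact h5.symm

end Q27.FJT
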